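import Pool.Agent.Lib.MP_e6d203_pr.Final
import Pool.Agent.Lib.MP_e6d203_pr.Criterion
import Pool.Agent.Lib.MP_e6d203_pr.Transfer

set_option autoImplicit false

open MeasureTheory MPe6d203

namespace Pool.Agent.Results.MP_e6d203_pr.HardEdgeRigid

/-- **Number rigidity of the hard-edge limit of the β-Laguerre ensembles, for all `β > 0` and
`a > -1`.** If a simple point process `X` on `(0, ∞)` is the limit in law of the rescaled
`β`-Laguerre ensembles `{c n l_i}`, then `X` is number rigid. -/
theorem result {Ω : Type*} [MeasurableSpace Ω] (P : Measure Ω) [IsProbabilityMeasure P]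
    (X : Ω → Set ℝ) (hX : IsPointProcess X) (β a : ℝ) (hβ : 0 < β) (ha : -1 < a)
    (hlim : IsHardEdgeLimit β a P X) : NumberRigid P X := by
  obtain ⟨c, hc, hlim⟩ := hlim
  obtain ⟨hedge, hconc⟩ := transfer P X hX (fun n => laguerre β a n)
    (fun n => isProbabilityMeasure_laguerre hβ ha n) c hc hlim
    (fun δ hδ => edge_tight hβ ha c hc δ hδ) (fun b hb ε hε => conc_laguerre hβ ha hc b hb ε hε)
  exact numberRigid_of_concentration P X hX hedge hconc

end Pool.Agent.Results.MP_e6d203_pr.HardEdgeRigid
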